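import Mathlib

/-!
Arithmetic behind the existential undecidability of `(ℤ, +, |₂, 0, 1)`: multiplication by powers
of two, squares modulo `2 ^ a - 1`, and certificates that a quotient is a power of two.
-/

set_option autoImplicit false

namespace Pool.Agent.H395R5

/-- the relation `x |₂ y` -/
def Dv (x y : ℤ) : Prop := ∃ s : ℕ, y = 2 ^ s * x

/-- powers of two -/
def IsPow (u : ℤ) : Prop := ∃ a : ℕ, u = 2 ^ a

theorem isPow_iff (u : ℤ) : IsPow u ↔ Dv 1 u := by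
  unfold IsPow Dv
  simp

theorem mulpow_aux (i a j k : ℕ) (z : ℤ) (hz : 2 ≤ z)
    (h1 : 2 ^ i * z + 2 ^ a = 2 ^ j * (z + 1)) (h2 : 2 ^ i * z - 2 ^ a = 2 ^ k * (z - 1)) :
    i = a := by
  have pI : (0 : ℤ) < 2 ^ i := by positivity
  have pA : (0 : ℤ) < 2 ^ a := by positivity
  have pJ : (0 : ℤ) < 2 ^ j := by positivity
  have pK : (0 : ℤ) < 2 ^ k := by positivity
  rcases lt_trichotomy i a with h | h | h
  · exfalso
    have hIA : (2 : ℤ) ^ i < 2 ^ a := pow_lt_pow_right₀ (by norm_num) h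
    have hJ : i < j := by
      by_contra hc
      have : (2 : ℤ) ^ j ≤ 2 ^ i := pow_le_pow_right₀ (by norm_num) (by omega)
      nlinarith
    have hJ2 : (2 : ℤ) * 2 ^ i ≤ 2 ^ j := by
      have : (2 : ℤ) ^ (i + 1) ≤ 2 ^ j := pow_le_pow_right₀ (by norm_num) (by omega)
      rw [pow_succ] at this
      linarith
    nlinarith
  · exact h
  · exfalso
    have hIA : (2 : ℤ) ^ a < 2 ^ i := pow_lt_pow_right₀ (by norm_num) h
    have hJ : j < i := by
      by_contra hc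
      have : (2 : ℤ) ^ i ≤ 2 ^ j := pow_le_pow_right₀ (by norm_num) (by omega)
      nlinarith
    have hJ2 : (2 : ℤ) * 2 ^ j ≤ 2 ^ i := by
      have : (2 : ℤ) ^ (j + 1) ≤ 2 ^ i := pow_le_pow_right₀ (by norm_num) (by omega)
      rw [pow_succ] at this
      linarith
    nlinarith

/-- multiplication by powers of two is definable -/
theorem mulpow_iff (u z w : ℤ) :
    (IsPow u ∧ w = u * z) ↔ (Dv 1 u ∧ Dv z w ∧ Dv (z + 1) (w + u) ∧ Dv (z - 1) (w - u)) := by
  constructor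
  · rintro ⟨⟨a, rfl⟩, rfl⟩
    exact ⟨⟨a, by ring⟩, ⟨a, rfl⟩, ⟨a, by ring⟩, ⟨a, by ring⟩⟩
  · rintro ⟨⟨a, ha⟩, ⟨i, hi⟩, ⟨j, hj⟩, ⟨k, hk⟩⟩
    rw [mul_one] at ha
    refine ⟨⟨a, ha⟩, ?_⟩
    subst ha
    subst hi
    have h1 : 2 ^ i * z + 2 ^ a = 2 ^ j * (z + 1) := hj
    have h2 : 2 ^ i * z - 2 ^ a = 2 ^ k * (z - 1) := hk
    rcases lt_trichotomy z 0 with h | h | h
    · rcases eq_or_ne z (-1) with h' | h'
      · subst h'
        simp at h1
        linarith
      · have : i = a := mulpow_aux i a k j (-z) (by omega) (by linarith) (by linarith)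
        rw [this]
    · subst h; simp
    · rcases eq_or_ne z 1 with h' | h'
      · subst h'
        simp at h2
        linarith
      · have : i = a := mulpow_aux i a j k z (by omega) h1 h2
        rw [this]

theorem two_pow_sub_one_cast (a : ℕ) : ((2 ^ a - 1 : ℕ) : ℤ) = 2 ^ a - 1 := by
  rw [Nat.cast_sub Nat.one_le_two_pow]
  push_cast
  rfl

/-- divisibility of exponents -/
theorem dvd_exp_iff (a b : ℕ) (_ha : 1 ≤ a) : ((2 : ℤ) ^ a - 1 ∣ 2 ^ b - 1) ↔ a ∣ b := by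
  constructor
  · intro h
    rw [← two_pow_sub_one_cast, ← two_pow_sub_one_cast] at h
    have h' : (2 ^ a - 1) ∣ (2 ^ b - 1) := by exact_mod_cast h
    have h1 := Nat.pow_sub_one_gcd_pow_sub_one 2 a b
    rw [Nat.gcd_eq_left h'] at h1
    have h2 : 2 ^ a = 2 ^ (Nat.gcd a b) := by
      have e1 : 1 ≤ 2 ^ a := Nat.one_le_two_pow
      have e2 : 1 ≤ 2 ^ (Nat.gcd a b) := Nat.one_le_two_pow
      omega
    have h3 : a = Nat.gcd a b := Nat.pow_right_injective le_rfl h2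
    rw [h3]
    exact Nat.gcd_dvd_right a b
  · rintro ⟨c, rfl⟩
    rw [pow_mul]
    have := sub_dvd_pow_sub_pow ((2 : ℤ) ^ a) 1 c
    simpa using this

/-- the certificate -/
def Cert (x y : ℕ) : Prop := ∃ z : ℤ, (2 : ℤ) ^ y - 1 ∣ (z * z + 1) * ((2 : ℤ) ^ (2 * x) - 1)

theorem cert_sound {x y : ℕ} (h : Cert x y) (d : ℕ) (hd : 1 < d) (ho : Odd d) (hy : d ∣ y)
    (hx : Nat.Coprime d x) : False := by
  obtain ⟨z, hz⟩ := h
  have h1 : ((2 : ℤ) ^ d - 1) ∣ 2 ^ y - 1 := (dvd_exp_iff d y (by omega)).2 hy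
  have h2 := h1.trans hz
  have hc : Nat.Coprime (2 ^ d - 1) (2 ^ (2 * x) - 1) := by
    unfold Nat.Coprime
    rw [Nat.pow_sub_one_gcd_pow_sub_one]
    have : Nat.Coprime d (2 * x) := Nat.Coprime.mul_right (Nat.Coprime.symm (by
      rw [Nat.coprime_two_left]; exact ho)) hx
    rw [this]
    norm_num
  have hc' : IsCoprime ((2 : ℤ) ^ d - 1) (2 ^ (2 * x) - 1) := by
    rw [← two_pow_sub_one_cast, ← two_pow_sub_one_cast]
    exact Nat.isCoprime_iff_coprime.2 hc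
  have h3 : ((2 : ℤ) ^ d - 1) ∣ z * z + 1 := hc'.dvd_of_dvd_mul_right h2
  set n : ℕ := 2 ^ d - 1 with hn
  have hcast : (n : ℤ) = 2 ^ d - 1 := two_pow_sub_one_cast d
  rw [← hcast] at h3
  have h4 : 4 ∣ 2 ^ d := by
    have : 2 ^ 2 ∣ 2 ^ d := pow_dvd_pow 2 (by omega)
    simpa using this
  have hmod : n % 4 = 3 := by
    have : 1 ≤ 2 ^ d := Nat.one_le_two_pow
    omega
  have hodd : Odd n := by
    rw [Nat.odd_iff]; omega
  have e1 := jacobiSym.at_neg_one hodd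
  rw [ZMod.χ₄_nat_three_mod_four hmod] at e1
  have e2 : jacobiSym (-1) n = jacobiSym (z ^ 2) n := by
    apply jacobiSym.mod_left'
    have : (n : ℤ) ∣ z ^ 2 - (-1) := by
      have e : z ^ 2 - (-1) = z * z + 1 := by ring
      rw [e]; exact h3
    exact Int.modEq_iff_dvd.2 this
  rw [e2, jacobiSym.pow_left] at e1
  have := sq_nonneg (jacobiSym z n)
  linarith

theorem cert_complete (x : ℕ) (hx : 1 ≤ x) (s : ℕ) : Cert x (x * 2 ^ (s + 1)) := by
  induction s with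
  | zero =>
    refine ⟨0, ?_⟩
    have : x * 2 ^ (0 + 1) = 2 * x := by ring
    rw [this]
    simp
  | succ s ih =>
    obtain ⟨z, hz⟩ := ih
    set X : ℤ := 2 ^ (x * 2 ^ (s + 1)) with hX
    have e1 : (2 : ℤ) ^ (x * 2 ^ (s + 1 + 1)) - 1 = (X - 1) * (X + 1) := by
      have : x * 2 ^ (s + 1 + 1) = (x * 2 ^ (s + 1)) * 2 := by ring
      rw [this, pow_mul, ← hX]
      ring
    set h : ℤ := 2 ^ (x * 2 ^ s) with hh
    have e2 : h * h = X := by
      rw [hh, hX, ← pow_add]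
      congr 1
      ring
    obtain ⟨t, ht⟩ : ∃ t : ℤ, X = 2 * t := by
      refine ⟨2 ^ (x * 2 ^ (s + 1) - 1), ?_⟩
      rw [hX, ← pow_succ']
      congr 1
      have : 1 ≤ x * 2 ^ (s + 1) := Nat.one_le_iff_ne_zero.2 (by positivity)
      omega
    have hcop : IsCoprime (X - 1) (X + 1) := by
      refine ⟨-(t + 1), t, ?_⟩
      rw [ht]
      ring
    obtain ⟨a, b, hab⟩ := hcop
    -- z' ≡ z mod X-1, z' ≡ h mod X+1
    refine ⟨h * (a * (X - 1)) + z * (b * (X + 1)), ?_⟩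
    rw [e1]
    set z' := h * (a * (X - 1)) + z * (b * (X + 1)) with hz'
    have c1 : (X - 1) ∣ z' - z := by
      refine ⟨(h - z) * a, ?_⟩
      rw [hz']
      have : b * (X + 1) = 1 - a * (X - 1) := by linarith
      rw [this]; ring
    have c2 : (X + 1) ∣ z' - h := by
      refine ⟨(z - h) * b, ?_⟩
      rw [hz']
      have : a * (X - 1) = 1 - b * (X + 1) := by linarith
      rw [this]; ring
    have d1 : (X - 1) ∣ (z' * z' + 1) * ((2 : ℤ) ^ (2 * x) - 1) := by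
      have : (z' * z' + 1) * ((2 : ℤ) ^ (2 * x) - 1) =
        (z * z + 1) * ((2 : ℤ) ^ (2 * x) - 1) +
          (z' - z) * ((z' + z) * ((2 : ℤ) ^ (2 * x) - 1)) := by ring
      rw [this]
      exact dvd_add hz (Dvd.dvd.mul_right c1 _)
    have d2 : (X + 1) ∣ (z' * z' + 1) * ((2 : ℤ) ^ (2 * x) - 1) := by
      apply Dvd.dvd.mul_right
      have : z' * z' + 1 = (X + 1) + (z' - h) * (z' + h) := by rw [← e2]; ring
      rw [this]
      exact dvd_add (dvd_refl _) (Dvd.dvd.mul_right c2 _)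
    exact (show IsCoprime (X - 1) (X + 1) from ⟨a, b, hab⟩).mul_dvd d1 d2

end Pool.Agent.H395R5
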