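import Mathlib
import Pool.Agent.H395R5.ZB1

/-!
Powers of two, their squares, and squares of exponents.
-/

set_option autoImplicit false

namespace Pool.Agent.H395R5

/-- a positive number all of whose odd divisors are `1` is a power of two -/
theorem pow_two_of_odd (a : ℕ) (ha : 0 < a) (h : ∀ d, 1 < d → Odd d → d ∣ a → False) :
    ∃ s, a = 2 ^ s := by
  obtain ⟨s, m, hm, e⟩ := Nat.exists_eq_two_pow_mul_odd ha.ne'
  refine ⟨s, ?_⟩
  have : m = 1 := by
    by_contra hne
    have : 0 < m := hm.pos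
    exact h m (by omega) hm (by rw [e]; exact Dvd.intro_left _ rfl)
  rw [e, this, mul_one]

/-- the exponent is an even power of two -/
theorem pow2_iff (a : ℕ) (ha : 1 ≤ a) : (∃ s, a = 2 ^ (s + 1)) ↔ (2 ∣ a ∧ Cert 1 a) := by
  constructor
  · rintro ⟨s, rfl⟩
    refine ⟨⟨2 ^ s, by ring⟩, ?_⟩
    have := cert_complete 1 le_rfl s
    rwa [one_mul] at this
  · rintro ⟨h2, hc⟩
    obtain ⟨s, hs⟩ := pow_two_of_odd a ha (fun d h1 h3 h4 =>
      cert_sound hc d h1 h3 h4 (Nat.coprime_one_right d))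
    rcases s with _ | s
    · rw [hs] at h2
      norm_num at h2
    · exact ⟨s, hs⟩

theorem exists_odd_mul (s r : ℕ) (hs : 2 ≤ s) (h : 2 ^ s + 1 ∣ 2 ^ r + 1) :
    ∃ u, Odd u ∧ r = s * u := by
  refine ⟨r / s, ?_⟩
  have hlt : r % s < s := Nat.mod_lt _ (by omega)
  set t := r % s with ht
  set q := r / s with hq
  have hr : r = s * q + t := (Nat.div_add_mod r s).symm
  have h1 : ((2 : ℤ) ^ s + 1) ∣ 2 ^ r + 1 := by exact_mod_cast h
  have h2 : (2 : ℤ) ^ t * 2 ≤ 2 ^ s := by
    rw [← pow_succ]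
    exact pow_le_pow_right₀ (by norm_num) (by omega)
  have h3 : ((2 : ℤ) ^ s + 1) ∣ (2 ^ s) ^ q - (-1) ^ q := by
    have := sub_dvd_pow_sub_pow ((2 : ℤ) ^ s) (-1) q
    rwa [sub_neg_eq_add] at this
  have e1 : (2 : ℤ) ^ r = (2 ^ s) ^ q * 2 ^ t := by rw [hr, pow_add, pow_mul]
  have h4 : ((2 : ℤ) ^ s + 1) ∣ (-1) ^ q * 2 ^ t + 1 := by
    have : (-1) ^ q * (2 : ℤ) ^ t + 1 = (2 ^ r + 1) - ((2 ^ s) ^ q - (-1) ^ q) * 2 ^ t := by
      rw [e1]; ring
    rw [this]
    exact dvd_sub h1 (Dvd.dvd.mul_right h3 _)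
  have pt : (0 : ℤ) < 2 ^ t := by positivity
  have ps : (4 : ℤ) ≤ 2 ^ s := by
    have : (2 : ℤ) ^ 2 ≤ 2 ^ s := pow_le_pow_right₀ (by norm_num) hs
    simpa using this
  rcases Nat.even_or_odd q with hev | hod
  · exfalso
    rw [hev.neg_one_pow, one_mul] at h4
    have := Int.le_of_dvd (by linarith) h4
    linarith
  · refine ⟨hod, ?_⟩
    rw [hod.neg_one_pow] at h4
    have h5 : (-1 : ℤ) * 2 ^ t + 1 = 0 := by
      apply Int.eq_zero_of_abs_lt_dvd h4
      rw [abs_lt]
      constructor <;> linarith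
    have h6 : (2 : ℤ) ^ t = 1 := by linarith
    have h7 : t = 0 := by
      by_contra hne
      have : (2 : ℤ) ^ 1 ≤ 2 ^ t := pow_le_pow_right₀ (by norm_num) (by omega)
      rw [h6] at this
      norm_num at this
    rw [h7] at hr
    simpa using hr

/-- the key step: the square of a power of two is determined by divisibility and the certificate -/
theorem sqQ_sound (s r : ℕ) (hs : 2 ≤ s)
    (hd : 2 ^ s + 1 ∣ 2 ^ s * 2 ^ r + 2 ^ s)
    (hc : Cert (2 ^ s + 1) (2 ^ s * 2 ^ r + 2 ^ s)) : r = s := by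
  set Q := 2 ^ s with hQ
  have hQ4 : 4 ≤ Q := by
    have : 2 ^ 2 ≤ 2 ^ s := Nat.pow_le_pow_right (by norm_num) hs
    simpa using this
  have hoQ : Odd (Q + 1) := by
    have : Even Q := by
      rw [hQ]; exact (Nat.even_pow.2 ⟨by decide, by omega⟩)
    exact this.add_one
  have hcop : Nat.Coprime (Q + 1) Q := by simp
  have e1 : Q * 2 ^ r + Q = Q * (2 ^ r + 1) := by ring
  rw [e1] at hd hc
  have hd' : Q + 1 ∣ 2 ^ r + 1 := hcop.dvd_of_dvd_mul_left hd
  obtain ⟨u, hu, hru⟩ := exists_odd_mul s r hs hd'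
  rcases Nat.lt_or_ge u 2 with h2 | h2
  · obtain ⟨k, hk⟩ := hu
    have : u = 1 := by omega
    rw [hru, this, mul_one]
  · exfalso
    have hu3 : 3 ≤ u := by
      obtain ⟨k, hk⟩ := hu
      omega
    have e2 : 2 ^ r = Q ^ u := by rw [hru, pow_mul]
    rw [e2] at hc
    have hdvd : Q ^ u + 1 ∣ (Q + 1) * u := by
      rw [← Nat.factorization_prime_le_iff_dvd (by positivity)
        (Nat.mul_ne_zero (by omega) (by omega))]
      intro p hp
      have : Fact p.Prime := ⟨hp⟩
      by_cases hpd : p ∣ Q ^ u + 1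
      · have hpo : Odd p := by
          rcases hp.eq_two_or_odd' with h | h
          · exfalso
            subst h
            have hev : Even (Q ^ u) := by
              rw [hQ, ← pow_mul]
              exact Nat.even_pow.2 ⟨by decide, Nat.mul_ne_zero (by omega) (by omega)⟩
            have := hev.add_one
            rw [← Nat.not_even_iff_odd] at this
            exact this (even_iff_two_dvd.2 hpd)
          · exact h
        have hpQ : p ∣ Q + 1 := by
          by_contra hn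
          exact cert_sound hc p hp.one_lt hpo (Dvd.dvd.mul_left hpd Q)
            ((Nat.Prime.coprime_iff_not_dvd hp).2 hn)
        have hpnQ : ¬ p ∣ Q := by
          intro h
          have h1 : p ∣ Nat.gcd (Q + 1) Q := Nat.dvd_gcd hpQ h
          rw [hcop] at h1
          exact hp.one_lt.ne' (Nat.dvd_one.1 h1)
        have lte := padicValNat.pow_add_pow hpo hpQ hpnQ hu
        rw [one_pow] at lte
        rw [Nat.factorization_def _ hp, Nat.factorization_def _ hp, lte,
          padicValNat.mul (by omega) (by omega)]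
      · rw [Nat.factorization_eq_zero_of_not_dvd hpd]
        exact Nat.zero_le _
    have hle := Nat.le_of_dvd (Nat.mul_pos (by omega) (by omega)) hdvd
    obtain ⟨w, rfl⟩ : ∃ w, u = w + 1 := ⟨u - 1, by omega⟩
    have h4 : 2 * (w + 1) ≤ 4 ^ w := by
      have : ∀ n, 2 ≤ n → 2 * (n + 1) ≤ 4 ^ n := by
        intro n hn
        induction n, hn using Nat.le_induction with
        | base => norm_num
        | succ n hn ih => rw [pow_succ]; omega
      exact this w (by omega)
    have h5 : 4 ^ w ≤ Q ^ w := Nat.pow_le_pow_left hQ4 w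
    rw [pow_succ] at hle
    nlinarith

theorem sqQ_complete (s : ℕ) (hs : 1 ≤ s) :
    2 ^ s + 1 ∣ 2 ^ s * 2 ^ s + 2 ^ s ∧ Cert (2 ^ s + 1) (2 ^ s * 2 ^ s + 2 ^ s) := by
  have e : 2 ^ s * 2 ^ s + 2 ^ s = (2 ^ s + 1) * 2 ^ s := by ring
  rw [e]
  refine ⟨Dvd.intro _ rfl, ?_⟩
  obtain ⟨s, rfl⟩ : ∃ s', s = s' + 1 := ⟨s - 1, by omega⟩
  exact cert_complete _ (Nat.le_add_left 1 _) s

/-- squares of exponents -/
theorem sq_exp (x y b : ℤ) (hx : 7 ≤ x) (hb : b ≤ 2 * x) (hb0 : 0 ≤ b) (hy : y ≤ b * b)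
    (hy0 : 0 ≤ y)
    (h1 : x ∣ y) (h2 : x + 1 ∣ y + x) (h3 : x - 1 ∣ y - x) : y = x * x := by
  have d1 : x ∣ y - x * x := dvd_sub h1 (Dvd.intro _ rfl)
  have d2 : x + 1 ∣ y - x * x := by
    have : y - x * x = (y + x) - (x + 1) * x := by ring
    rw [this]; exact dvd_sub h2 (Dvd.intro _ rfl)
  have d3 : x - 1 ∣ y - x * x := by
    have : y - x * x = (y - x) - (x - 1) * x := by ring
    rw [this]; exact dvd_sub h3 (Dvd.intro _ rfl)
  have c1 : IsCoprime x (x + 1) := ⟨-1, 1, by ring⟩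
  obtain ⟨k, hk⟩ := c1.mul_dvd d1 d2
  have c2 : IsCoprime (x - 1) x := ⟨-1, 1, by ring⟩
  have d4 : x - 1 ∣ (x + 1) * k := by
    have : x - 1 ∣ x * ((x + 1) * k) := by
      rw [hk] at d3
      convert d3 using 1
      ring
    exact c2.dvd_of_dvd_mul_left this
  have d5 : x - 1 ∣ 2 * k := by
    have : 2 * k = (x + 1) * k - (x - 1) * k := by ring
    rw [this]; exact dvd_sub d4 (Dvd.intro _ rfl)
  have b1 : y ≤ 4 * (x * x) := by nlinarith
  have b2 : k < 3 := by
    by_contra hc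
    have : x * (x + 1) * 3 ≤ x * (x + 1) * k := by
      apply mul_le_mul_of_nonneg_left (by linarith) (by positivity)
    nlinarith
  have b3 : -2 < k := by
    by_contra hc
    have : x * (x + 1) * k ≤ x * (x + 1) * (-2) := by
      apply mul_le_mul_of_nonneg_left (by linarith) (by positivity)
    nlinarith
  have hk0 : 2 * k = 0 := by
    apply Int.eq_zero_of_abs_lt_dvd d5
    rw [abs_lt]
    constructor <;> linarith
  have : k = 0 := by linarith
  rw [this] at hk
  linarith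

/-- a power of two between `x` and `2 x` -/
theorem exists_pow (x : ℕ) (hx : 7 ≤ x) : ∃ s, 2 ≤ s ∧ x ≤ 2 ^ s ∧ 2 ^ s ≤ 2 * x := by
  refine ⟨Nat.log 2 x + 1, ?_, ?_, ?_⟩
  · have : 1 ≤ Nat.log 2 x := Nat.le_log_of_pow_le (by norm_num) (by omega)
    omega
  · exact (Nat.lt_pow_succ_log_self (by norm_num) x).le
  · rw [pow_succ]
    have := Nat.pow_log_le_self 2 (show x ≠ 0 by omega)
    omega

end Pool.Agent.H395R5
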