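import Mathlib
import Pool.Agent.H395R5.ZB1

/-!
Squares modulo `2 ^ a - 1` are definable.
-/

set_option autoImplicit false

namespace Pool.Agent.H395R5

theorem pow_expand (Y : ℤ) (n : ℕ) :
    ∃ α : ℤ, (1 + Y) ^ n = 1 + Y * (n + (n.choose 2 : ℕ) * Y + Y ^ 2 * α) := by
  induction n with
  | zero => exact ⟨0, by simp⟩
  | succ n ih =>
    obtain ⟨α, hα⟩ := ih
    refine ⟨(n.choose 2 : ℕ) + α + Y * α, ?_⟩
    rw [pow_succ, hα, Nat.choose_succ_succ' n 1, Nat.choose_one_right]
    push_cast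
    ring

theorem choose_two (n : ℕ) : 2 * ((n.choose 2 : ℕ) : ℤ) + n = n * n := by
  induction n with
  | zero => simp
  | succ n ih =>
    rw [Nat.choose_succ_succ' n 1, Nat.choose_one_right]
    push_cast
    linarith

/-- squares modulo `x - 1` where `x = 2 ^ a`, `a ≥ 1` -/
def SqM (x z t : ℤ) : Prop := Dv 2 x ∧ (x - 1) ∣ t - z * z

theorem sqM_iff (x z t : ℤ) : SqM x z t ↔ ∃ E A B W V k l : ℤ,
    Dv 2 x ∧ IsPow E ∧ x * A - A = E - 1 ∧ (x * x) * B - B = E * E - 1 ∧
    B - A = (x * W - W) + ((x * x) * V - x * V - x * V + V) ∧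
    A - z = x * k - k ∧ t - (W + W + z) = x * l - l := by
  constructor
  · rintro ⟨hx, c, hc⟩
    obtain ⟨s, hs⟩ := hx
    have hx2 : (2 : ℤ) ≤ x := by
      rw [hs]
      have : (1 : ℤ) ≤ 2 ^ s := one_le_pow₀ (by norm_num)
      linarith
    set Y := x - 1 with hY
    have hxY : x = 1 + Y := by rw [hY]; ring
    obtain ⟨n, m, hn⟩ : ∃ (n : ℕ) (m : ℤ), z = n + Y * m := by
      refine ⟨(z % Y).toNat, z / Y, ?_⟩
      rw [Int.toNat_of_nonneg (Int.emod_nonneg _ (by linarith))]
      have := Int.emod_add_mul_ediv z Y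
      linarith
    obtain ⟨α, hα⟩ := pow_expand Y n
    obtain ⟨β, hβ⟩ := pow_expand (2 * Y + Y ^ 2) n
    have h2 := choose_two n
    set C : ℤ := ((n.choose 2 : ℕ) : ℤ) with hC
    refine ⟨x ^ n, n + C * Y + Y ^ 2 * α, n + C * (2 * Y + Y ^ 2) + (2 * Y + Y ^ 2) ^ 2 * β, C,
      C + (2 + Y) ^ 2 * β - α, C + Y * α - m, c + m * (z + n) - m, ⟨s, hs⟩, ?_, ?_, ?_, ?_, ?_, ?_⟩
    · refine ⟨(s + 1) * n, ?_⟩
      rw [pow_mul, pow_succ, ← hs]
    · rw [hxY, hα]; ring
    · have e : x ^ n * x ^ n = (1 + (2 * Y + Y ^ 2)) ^ n := by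
        rw [← mul_pow]
        congr 1
        rw [hxY]; ring
      rw [e, hβ, hxY]; ring
    · rw [hxY]; ring
    · rw [hn, hxY]; ring
    · have e1 : t = z * z + Y * c := by linarith
      have e2 : z * z = n * n + Y * m * (z + n) := by
        have : z - n = Y * m := by linarith
        have : (z - n) * (z + n) = Y * m * (z + n) := by rw [this]
        linarith
      rw [e1, e2, ← h2, hxY]
      rw [hn]
      ring
  · rintro ⟨E, A, B, W, V, k, l, hx, hE, h1, h2, h3, h4, h5⟩
    refine ⟨hx, ?_⟩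
    obtain ⟨s, hs⟩ := hx
    obtain ⟨e, he⟩ := hE
    have hx2 : (2 : ℤ) ≤ x := by
      rw [hs]
      have : (1 : ℤ) ≤ 2 ^ s := one_le_pow₀ (by norm_num)
      linarith
    have hxp : x = 2 ^ (s + 1) := by rw [hs, pow_succ]
    have hd : (2 : ℤ) ^ (s + 1) - 1 ∣ 2 ^ e - 1 := by
      rw [← hxp, ← he]
      exact ⟨A, by linarith⟩
    obtain ⟨n, hn⟩ := (dvd_exp_iff (s + 1) e (by omega)).1 hd
    have hEn : E = x ^ n := by rw [he, hn, pow_mul, ← hxp]
    set Y := x - 1 with hY
    have hxY : x = 1 + Y := by rw [hY]; ring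
    have hY0 : Y ≠ 0 := by intro h; linarith
    obtain ⟨α, hα⟩ := pow_expand Y n
    obtain ⟨β, hβ⟩ := pow_expand (2 * Y + Y ^ 2) n
    have hch := choose_two n
    set C : ℤ := ((n.choose 2 : ℕ) : ℤ) with hC
    have hA : A = n + C * Y + Y ^ 2 * α := by
      apply mul_left_cancel₀ hY0
      have : Y * A = x * A - A := by rw [hxY]; ring
      rw [this, h1, hEn, hxY, hα]
      ring
    have hB : B = n + C * (2 * Y + Y ^ 2) + (2 * Y + Y ^ 2) ^ 2 * β := by
      have hne : 2 * Y + Y ^ 2 ≠ 0 := by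
        have : 2 * Y + Y ^ 2 = Y * (2 + Y) := by ring
        rw [this]
        exact mul_ne_zero hY0 (by intro h; linarith)
      apply mul_left_cancel₀ hne
      have : (2 * Y + Y ^ 2) * B = (x * x) * B - B := by rw [hxY]; ring
      rw [this, h2]
      have e : x ^ n * x ^ n = (1 + (2 * Y + Y ^ 2)) ^ n := by
        rw [← mul_pow]
        congr 1
        rw [hxY]; ring
      rw [hEn, e, hβ]
      ring
    have hW : W = C + Y * (C + (2 + Y) ^ 2 * β - α - V) := by
      apply mul_left_cancel₀ hY0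
      have e : Y * W = B - A - ((x * x) * V - x * V - x * V + V) := by
        have : Y * W = x * W - W := by rw [hxY]; ring
        rw [this]; linarith
      rw [e, hA, hB, hxY]
      ring
    have hz : z = n + Y * (C + Y * α - k) := by
      have : z = A - (x * k - k) := by linarith
      rw [this, hA, hxY]; ring
    have ht : t = W + W + z + Y * l := by
      have : t = W + W + z + (x * l - l) := by linarith
      rw [this, hxY]; ring
    set q := C + Y * α - k
    set r := C + (2 + Y) ^ 2 * β - α - V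
    refine ⟨2 * r + q + l - 2 * n * q - Y * q * q, ?_⟩
    rw [ht, hW, hz]
    linear_combination hch

end Pool.Agent.H395R5
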