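import Mathlib
import Pool.Agent.H395R5.ZB2
import Pool.Agent.H395R5.ZB3

/-!
Predicates on the integers that are definable by finite systems of constraints
`x = y + z`, `x |₂ y`, `x = 1` (the approach of `Pool.Agent.H669R3.XPDef`, over `ℤ`).
-/

set_option autoImplicit false

namespace Pool.Agent.H395R5

/-- constraints `x = y + z`, `x |₂ y`, `x = 1` -/
abbrev Con (V : Type) : Type := (V × V × V) ⊕ (V × V) ⊕ V

/-- truth of a constraint -/
def Holds {V : Type} (v : V → ℤ) : Con V → Prop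
  | Sum.inl t => v t.1 = v t.2.1 + v t.2.2
  | Sum.inr (Sum.inl t) => Dv (v t.1) (v t.2)
  | Sum.inr (Sum.inr i) => v i = 1

/-- renaming of variables -/
def cmap {V W : Type} (f : V → W) : Con V → Con W
  | Sum.inl t => Sum.inl (f t.1, f t.2.1, f t.2.2)
  | Sum.inr (Sum.inl t) => Sum.inr (Sum.inl (f t.1, f t.2))
  | Sum.inr (Sum.inr i) => Sum.inr (Sum.inr (f i))

theorem holds_cmap {V W : Type} (f : V → W) (c : Con V) (v : W → ℤ) :
    Holds v (cmap f c) ↔ Holds (v ∘ f) c := by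
  rcases c with t | t | i <;> rfl

/-- definable predicates -/
def ZD {α : Type} (S : (α → ℤ) → Prop) : Prop :=
  ∃ (β : Type) (_ : Fintype β) (L : List (Con (α ⊕ β))), ∀ v : α → ℤ,
    (S v ↔ ∃ y : β → ℤ, ∀ c ∈ L, Holds (Sum.elim v y) c)

theorem ZD.congr {α : Type} {S T : (α → ℤ) → Prop} (h : ZD S)
    (e : ∀ v, (T v ↔ S v)) : ZD T := by
  obtain ⟨β, i, L, hL⟩ := h
  exact ⟨β, i, L, fun v => (e v).trans (hL v)⟩

theorem ZD.base {α : Type} (c : Con α) : ZD (fun v => Holds v c) := by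
  refine ⟨Empty, inferInstance, [cmap Sum.inl c], fun v => ?_⟩
  constructor
  · intro h
    refine ⟨Empty.elim, ?_⟩
    intro c' hc'
    rw [List.mem_singleton] at hc'
    subst hc'
    rw [holds_cmap]
    exact h
  · rintro ⟨y, h⟩
    have := h _ (List.mem_singleton.2 rfl)
    rw [holds_cmap] at this
    exact this

theorem ZD.and {α : Type} {S T : (α → ℤ) → Prop} (hS : ZD S) (hT : ZD T) :
    ZD (fun v => S v ∧ T v) := by
  obtain ⟨β₁, i₁, L₁, h₁⟩ := hS
  obtain ⟨β₂, i₂, L₂, h₂⟩ := hT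
  refine ⟨β₁ ⊕ β₂, inferInstance, L₁.map (cmap (Sum.map id Sum.inl)) ++
    L₂.map (cmap (Sum.map id Sum.inr)), fun v => ?_⟩
  change (S v ∧ T v) ↔ _
  rw [h₁ v, h₂ v]
  constructor
  · rintro ⟨⟨y₁, q₁⟩, ⟨y₂, q₂⟩⟩
    refine ⟨Sum.elim y₁ y₂, ?_⟩
    intro c hc
    rw [List.mem_append, List.mem_map, List.mem_map] at hc
    rcases hc with ⟨c, hc, rfl⟩ | ⟨c, hc, rfl⟩
    · rw [holds_cmap]
      have := q₁ c hc
      convert this using 1
      funext i
      rcases i with i | i <;> rfl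
    · rw [holds_cmap]
      have := q₂ c hc
      convert this using 1
      funext i
      rcases i with i | i <;> rfl
  · rintro ⟨y, q⟩
    refine ⟨⟨y ∘ Sum.inl, ?_⟩, ⟨y ∘ Sum.inr, ?_⟩⟩
    · intro c hc
      have := q _ (List.mem_append_left _ (List.mem_map_of_mem hc))
      rw [holds_cmap] at this
      convert this using 1
      funext i
      rcases i with i | i <;> rfl
    · intro c hc
      have := q _ (List.mem_append_right _ (List.mem_map_of_mem hc))
      rw [holds_cmap] at this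
      convert this using 1
      funext i
      rcases i with i | i <;> rfl

theorem ZD.exs {α δ : Type} [Fintype δ] {S : (α ⊕ δ → ℤ) → Prop} (h : ZD S) :
    ZD (fun v : α → ℤ => ∃ t : δ → ℤ, S (Sum.elim v t)) := by
  obtain ⟨β, i, L, hL⟩ := h
  refine ⟨δ ⊕ β, inferInstance, L.map (cmap (fun x => match x with
    | Sum.inl (Sum.inl a) => Sum.inl a
    | Sum.inl (Sum.inr d) => Sum.inr (Sum.inl d)
    | Sum.inr b => Sum.inr (Sum.inr b))), fun v => ?_⟩
  constructor
  · rintro ⟨t, hS⟩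
    obtain ⟨y, hc⟩ := (hL _).1 hS
    refine ⟨Sum.elim t y, ?_⟩
    intro c hc'
    rw [List.mem_map] at hc'
    obtain ⟨c, hc', rfl⟩ := hc'
    rw [holds_cmap]
    have := hc c hc'
    convert this using 1
    funext i
    rcases i with (i | i) | i <;> rfl
  · rintro ⟨y, hc⟩
    refine ⟨y ∘ Sum.inl, ?_⟩
    refine (hL _).2 ⟨y ∘ Sum.inr, ?_⟩
    intro c hc'
    have := hc _ (List.mem_map_of_mem hc')
    rw [holds_cmap] at this
    convert this using 1
    funext i
    rcases i with (i | i) | i <;> rfl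

theorem ZD.reindex {α β : Type} {S : (α → ℤ) → Prop} (h : ZD S) (f : α → β) :
    ZD (fun v : β → ℤ => S (v ∘ f)) := by
  obtain ⟨γ, i, L, hL⟩ := h
  refine ⟨γ, i, L.map (cmap (Sum.map f id)), fun v => ?_⟩
  change S (v ∘ f) ↔ _
  rw [hL (v ∘ f)]
  constructor
  · rintro ⟨y, hc⟩
    refine ⟨y, ?_⟩
    intro c hc'
    rw [List.mem_map] at hc'
    obtain ⟨c, hc', rfl⟩ := hc'
    rw [holds_cmap]
    have := hc c hc'
    convert this using 1
    funext i
    rcases i with i | i <;> rfl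
  · rintro ⟨y, hc⟩
    refine ⟨y, ?_⟩
    intro c hc'
    have := hc _ (List.mem_map_of_mem hc')
    rw [holds_cmap] at this
    convert this using 1
    funext i
    rcases i with i | i <;> rfl

/-- one existential variable -/
theorem ZD.ex {α : Type} {S : ℤ → (α → ℤ) → Prop}
    (h : ZD (fun w : Option α → ℤ => S (w none) (w ∘ some))) :
    ZD (fun v : α → ℤ => ∃ x, S x v) := by
  have h' := ZD.exs (α := α) (δ := Unit) (ZD.reindex h
    (fun o : Option α => match o with | none => Sum.inr () | some a => Sum.inl a))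
  refine h'.congr fun v => ?_
  constructor
  · rintro ⟨x, hS⟩
    exact ⟨fun _ => x, hS⟩
  · rintro ⟨t, hS⟩
    exact ⟨t (), hS⟩

/-- definable terms with a side condition -/
def ZT {α : Type} (D : (α → ℤ) → Prop) (f : (α → ℤ) → ℤ) : Prop :=
  ZD (fun w : Option α → ℤ => D (w ∘ some) ∧ w none = f (w ∘ some))

theorem ZT.subst {α : Type} {D : (α → ℤ) → Prop} {f : (α → ℤ) → ℤ} {S : ℤ → (α → ℤ) → Prop}
    (hf : ZT D f) (h : ZD (fun w : Option α → ℤ => S (w none) (w ∘ some))) :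
    ZD (fun v : α → ℤ => D v ∧ S (f v) v) := by
  have := ZD.ex (S := fun x v => (D v ∧ x = f v) ∧ S x v) (ZD.and hf h)
  refine this.congr fun v => ?_
  constructor
  · rintro ⟨h1, h2⟩
    exact ⟨f v, ⟨h1, rfl⟩, h2⟩
  · rintro ⟨x, ⟨h1, rfl⟩, h2⟩
    exact ⟨h1, h2⟩

theorem ZT.lift {α : Type} {D : (α → ℤ) → Prop} {f : (α → ℤ) → ℤ} (hf : ZT D f) :
    ZT (fun w : Option α → ℤ => D (w ∘ some)) (fun w => f (w ∘ some)) := by
  have := ZD.reindex hf (fun o : Option α => match o with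
    | none => (none : Option (Option α)) | some a => some (some a))
  exact this

theorem ZT.pred2 {α : Type} {D D' : (α → ℤ) → Prop} {f g : (α → ℤ) → ℤ} {S : ℤ → ℤ → Prop}
    (h : ZD (fun w : Fin 2 → ℤ => S (w 0) (w 1))) (hf : ZT D f) (hg : ZT D' g) :
    ZD (fun v : α → ℤ => D v ∧ D' v ∧ S (f v) (g v)) := by
  have h1 : ZD (fun w : Option (Option α) → ℤ => S (w (some none)) (w none)) :=
    ZD.reindex h (fun b : Fin 2 => (![some none, none] b : Option (Option α)))
  have h2 := ZT.subst (α := Option α) (S := fun x w => S (w none) x) hg.lift h1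
  exact ZT.subst (α := α) (S := fun x v => D' v ∧ S x (g v)) hf h2

theorem ZT.pred3 {α : Type} {D D' D'' : (α → ℤ) → Prop} {f g k : (α → ℤ) → ℤ}
    {S : ℤ → ℤ → ℤ → Prop}
    (h : ZD (fun w : Fin 3 → ℤ => S (w 0) (w 1) (w 2))) (hf : ZT D f) (hg : ZT D' g)
    (hk : ZT D'' k) :
    ZD (fun v : α → ℤ => D v ∧ D' v ∧ D'' v ∧ S (f v) (g v) (k v)) := by
  have h1 : ZD (fun w : Option (Option (Option α)) → ℤ =>
      S (w (some (some none))) (w (some none)) (w none)) :=
    ZD.reindex h (fun b : Fin 3 => (![some (some none), some none, none] b :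
      Option (Option (Option α))))
  have h2 := ZT.subst (α := Option (Option α))
    (S := fun x w => S (w (some none)) (w none) x) hk.lift.lift h1
  have h3 := ZT.subst (α := Option α)
    (S := fun x w => D'' (w ∘ some) ∧ S (w none) x (k (w ∘ some))) hg.lift h2
  exact ZT.subst (α := α) (S := fun x v => D' v ∧ D'' v ∧ S x (g v) (k v)) hf h3

theorem ZD.eqVar : ZD (fun w : Fin 2 → ℤ => w 0 = w 1) := by
  -- z = x + o, z = y + o
  have h2 : ZD (fun w : Option (Option (Fin 2)) → ℤ =>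
      w (some none) = w (some (some 0)) + w none) :=
    ZD.base (Sum.inl (some none, some (some 0), none))
  have h3 : ZD (fun w : Option (Option (Fin 2)) → ℤ =>
      w (some none) = w (some (some 1)) + w none) :=
    ZD.base (Sum.inl (some none, some (some 1), none))
  have h4 := ZD.ex (α := Option (Fin 2)) (S := fun x w =>
    (w none = w (some 0) + x ∧ w none = w (some 1) + x)) (ZD.and h2 h3)
  have h5 := ZD.ex (α := Fin 2) (S := fun z w => ∃ x, (z = w 0 + x ∧ z = w 1 + x)) h4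
  refine h5.congr fun w => ?_
  constructor
  · intro h
    exact ⟨w 0, 0, by simp, by simp [h]⟩
  · rintro ⟨z, x, h1, h2⟩
    linarith

theorem ZT.var {α : Type} (i : α) : ZT (fun _ => True) (fun v : α → ℤ => v i) := by
  refine (ZD.reindex ZD.eqVar (fun b : Fin 2 => (![none, some i] b : Option α))).congr
    fun w => ?_
  constructor
  · rintro ⟨_, h⟩
    exact h
  · intro h
    exact ⟨trivial, h⟩

theorem ZT.eq {α : Type} {D D' : (α → ℤ) → Prop} {f g : (α → ℤ) → ℤ}
    (hf : ZT D f) (hg : ZT D' g) : ZD (fun v : α → ℤ => D v ∧ D' v ∧ f v = g v) :=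
  ZT.pred2 (S := fun x y => x = y) ZD.eqVar hf hg

theorem ZT.dv {α : Type} {D D' : (α → ℤ) → Prop} {f g : (α → ℤ) → ℤ}
    (hf : ZT D f) (hg : ZT D' g) : ZD (fun v : α → ℤ => D v ∧ D' v ∧ Dv (f v) (g v)) :=
  ZT.pred2 (S := fun x y => Dv x y) (ZD.base (α := Fin 2) (Sum.inr (Sum.inl (0, 1)))) hf hg

theorem ZT.op {α : Type} {D D' : (α → ℤ) → Prop} {f g : (α → ℤ) → ℤ} {o : ℤ → ℤ → ℤ}
    {E : ℤ → ℤ → Prop}
    (h : ZD (fun w : Fin 3 → ℤ => E (w 1) (w 2) ∧ w 0 = o (w 1) (w 2)))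
    (hf : ZT D f) (hg : ZT D' g) :
    ZT (fun v => D v ∧ D' v ∧ E (f v) (g v)) (fun v => o (f v) (g v)) := by
  have := ZT.pred3 (S := fun x y z => E y z ∧ x = o y z) h (ZT.var (none : Option α))
    hf.lift hg.lift
  refine this.congr fun w => ?_
  constructor
  · rintro ⟨⟨h1, h2, h3⟩, h4⟩
    exact ⟨trivial, h1, h2, h3, h4⟩
  · rintro ⟨_, h1, h2, h3, h4⟩
    exact ⟨⟨h1, h2, h3⟩, h4⟩

theorem ZT.weaken {α : Type} {D D' : (α → ℤ) → Prop} {f : (α → ℤ) → ℤ} (hf : ZT D f)
    (h : ∀ v, D' v ↔ D v) : ZT D' f :=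
  hf.congr fun w => by rw [h]

theorem ZT.add {α : Type} {D D' : (α → ℤ) → Prop} {f g : (α → ℤ) → ℤ}
    (hf : ZT D f) (hg : ZT D' g) : ZT (fun v => D v ∧ D' v) (fun v => f v + g v) := by
  have h : ZD (fun w : Fin 3 → ℤ => True ∧ w 0 = w 1 + w 2) :=
    (ZD.base (α := Fin 3) (Sum.inl (0, 1, 2))).congr fun w => by
      constructor
      · rintro ⟨_, h⟩; exact h
      · intro h; exact ⟨trivial, h⟩
  refine (ZT.op (o := fun x y => x + y) (E := fun _ _ => True) h hf hg).weaken fun v => ?_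
  simp

theorem ZT.sub {α : Type} {D D' : (α → ℤ) → Prop} {f g : (α → ℤ) → ℤ}
    (hf : ZT D f) (hg : ZT D' g) : ZT (fun v => D v ∧ D' v) (fun v => f v - g v) := by
  have h : ZD (fun w : Fin 3 → ℤ => True ∧ w 0 = w 1 - w 2) :=
    (ZD.base (α := Fin 3) (Sum.inl (1, 0, 2))).congr fun w => by
      change (True ∧ w 0 = w 1 - w 2) ↔ w 1 = w 0 + w 2
      constructor
      · rintro ⟨_, h⟩; linarith
      · intro h; exact ⟨trivial, by linarith⟩
  refine (ZT.op (o := fun x y => x - y) (E := fun _ _ => True) h hf hg).weaken fun v => ?_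
  simp

theorem ZT.one {α : Type} : ZT (fun _ => True) (fun _ : α → ℤ => 1) := by
  refine (ZD.base (α := Option α) (Sum.inr (Sum.inr none))).congr fun w => ?_
  constructor
  · rintro ⟨_, h⟩; exact h
  · intro h; exact ⟨trivial, h⟩

theorem ZT.const {α : Type} (n : ℕ) : ZT (fun _ => True) (fun _ : α → ℤ => ((n : ℤ) + 1)) := by
  induction n with
  | zero => simpa using ZT.one (α := α)
  | succ n ih =>
    have := (ZT.add ih ZT.one).weaken (D' := fun _ => True) fun v => by simp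
    simpa using this

end Pool.Agent.H395R5
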