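import Mathlib
import Pool.Agent.H395R5.ZC1

/-!
Definability of multiplication by powers of two, squares modulo `2 ^ a - 1`, powers of two among
exponents and squares of exponents.
-/

set_option autoImplicit false

namespace Pool.Agent.H395R5

theorem zd_mp : ZD (fun w : Fin 3 → ℤ => IsPow (w 1) ∧ w 0 = w 1 * w 2) := by
  have a1 := ZT.dv (ZT.one (α := Fin 3)) (ZT.var 1)
  have a2 := ZT.dv (ZT.var (2 : Fin 3)) (ZT.var 0)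
  have a3 := ZT.dv (ZT.add (ZT.var (2 : Fin 3)) ZT.one) (ZT.add (ZT.var 0) (ZT.var 1))
  have a4 := ZT.dv (ZT.sub (ZT.var (2 : Fin 3)) ZT.one) (ZT.sub (ZT.var 0) (ZT.var 1))
  refine (a1.and (a2.and (a3.and a4))).congr fun w => ?_
  rw [mulpow_iff]
  simp only [true_and, and_true]

theorem ZT.mul {α : Type} {D D' : (α → ℤ) → Prop} {f g : (α → ℤ) → ℤ}
    (hf : ZT D f) (hg : ZT D' g) :
    ZT (fun v => D v ∧ D' v ∧ IsPow (f v)) (fun v => f v * g v) :=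
  ZT.op (o := fun x y => x * y) (E := fun x _ => IsPow x) zd_mp hf hg

theorem isPow_mul {u w : ℤ} (hu : IsPow u) (hw : IsPow w) : IsPow (u * w) := by
  obtain ⟨a, rfl⟩ := hu
  obtain ⟨b, rfl⟩ := hw
  exact ⟨a + b, by rw [pow_add]⟩

theorem isPow_of_dv2 {x : ℤ} (h : Dv 2 x) : IsPow x := by
  obtain ⟨s, hs⟩ := h
  exact ⟨s + 1, by rw [hs, pow_succ]⟩

theorem isPow_of_dv {x y : ℤ} (hx : IsPow x) (h : Dv x y) : IsPow y := by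
  obtain ⟨s, hs⟩ := h
  obtain ⟨a, ha⟩ := hx
  exact ⟨s + a, by rw [hs, ha, pow_add]⟩

theorem zt_num {α : Type} (n : ℕ) (hn : 1 ≤ n) : ZT (fun _ => True) (fun _ : α → ℤ => (n : ℤ)) := by
  obtain ⟨k, rfl⟩ : ∃ k, n = k + 1 := ⟨n - 1, by omega⟩
  have := ZT.const (α := α) k
  simpa using this

theorem zd_dvd : ZD (fun w : Fin 2 → ℤ => IsPow (w 0) ∧ (w 0 - 1) ∣ w 1) := by
  have v0 := ZT.var (Sum.inl 0 : Fin 2 ⊕ Fin 1)
  have v1 := ZT.var (Sum.inl 1 : Fin 2 ⊕ Fin 1)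
  have k := ZT.var (Sum.inr 0 : Fin 2 ⊕ Fin 1)
  have a1 := ZT.eq v1 (ZT.sub (ZT.mul v0 k) k)
  refine (ZD.exs (δ := Fin 1) a1).congr fun w => ?_
  constructor
  · rintro ⟨h1, c, hc⟩
    refine ⟨fun _ => c, ?_⟩
    simp only [Sum.elim_inl, Sum.elim_inr, true_and, and_true]
    exact ⟨h1, by rw [hc]; ring⟩
  · rintro ⟨t, ht⟩
    simp only [Sum.elim_inl, Sum.elim_inr, true_and, and_true] at ht
    exact ⟨ht.1, t 0, by rw [ht.2]; ring⟩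

theorem zd_sqM : ZD (fun w : Fin 3 → ℤ => SqM (w 0) (w 1) (w 2)) := by
  have x := ZT.var (Sum.inl 0 : Fin 3 ⊕ Fin 7)
  have z := ZT.var (Sum.inl 1 : Fin 3 ⊕ Fin 7)
  have t := ZT.var (Sum.inl 2 : Fin 3 ⊕ Fin 7)
  have E := ZT.var (Sum.inr 0 : Fin 3 ⊕ Fin 7)
  have A := ZT.var (Sum.inr 1 : Fin 3 ⊕ Fin 7)
  have B := ZT.var (Sum.inr 2 : Fin 3 ⊕ Fin 7)
  have W := ZT.var (Sum.inr 3 : Fin 3 ⊕ Fin 7)
  have V := ZT.var (Sum.inr 4 : Fin 3 ⊕ Fin 7)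
  have k := ZT.var (Sum.inr 5 : Fin 3 ⊕ Fin 7)
  have l := ZT.var (Sum.inr 6 : Fin 3 ⊕ Fin 7)
  have c1 := ZT.dv (zt_num 2 (by norm_num)) x
  have c2 := ZT.dv (zt_num 1 (by norm_num)) E
  have c3 := ZT.eq (ZT.sub (ZT.mul x A) A) (ZT.sub E ZT.one)
  have c4 := ZT.eq (ZT.sub (ZT.mul (ZT.mul x x) B) B) (ZT.sub (ZT.mul E E) ZT.one)
  have c5 := ZT.eq (ZT.sub B A) (ZT.add (ZT.sub (ZT.mul x W) W)
    (ZT.add (ZT.sub (ZT.sub (ZT.mul (ZT.mul x x) V) (ZT.mul x V)) (ZT.mul x V)) V))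
  have c6 := ZT.eq (ZT.sub A z) (ZT.sub (ZT.mul x k) k)
  have c7 := ZT.eq (ZT.sub t (ZT.add (ZT.add W W) z)) (ZT.sub (ZT.mul x l) l)
  refine (ZD.exs (δ := Fin 7) (c1.and (c2.and (c3.and (c4.and (c5.and (c6.and c7))))))).congr
    fun w => ?_
  rw [sqM_iff]
  constructor
  · rintro ⟨E, A, B, W, V, k, l, h1, h2, h3, h4, h5, h6, h7⟩
    refine ⟨![E, A, B, W, V, k, l], ?_⟩
    have hx := isPow_of_dv2 h1
    have hxx := isPow_mul hx hx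
    have h2' := (isPow_iff E).1 h2
    simp only [Sum.elim_inl, Sum.elim_inr, true_and, and_true, Matrix.cons_val_zero,
      Matrix.cons_val_one, Matrix.cons_val, Nat.cast_one, Nat.cast_ofNat]
    exact ⟨h1, h2', ⟨hx, h3⟩, ⟨⟨hx, hxx⟩, h2, h4⟩, ⟨⟨hx, ⟨⟨hx, hxx⟩, hx⟩, hx⟩, h5⟩, ⟨hx, h6⟩,
      ⟨hx, h7⟩⟩
  · rintro ⟨y, h⟩
    simp only [Sum.elim_inl, Sum.elim_inr, true_and, and_true, Nat.cast_one,
      Nat.cast_ofNat] at h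
    obtain ⟨h1, h2, ⟨-, h3⟩, ⟨-, h2', h4⟩, ⟨-, h5⟩, ⟨-, h6⟩, ⟨-, h7⟩⟩ := h
    exact ⟨_, _, _, _, _, _, _, h1, h2', h3, h4, h5, h6, h7⟩

/-- the certificate for powers of two `X = 2 ^ x`, `Y = 2 ^ y` -/
def CertR (X Y : ℤ) : Prop := IsPow X ∧ Dv 2 Y ∧ ∃ z : ℤ, (Y - 1) ∣ (z * z + 1) * (X * X - 1)

theorem certR_iff (x y : ℕ) (hy : 1 ≤ y) : CertR (2 ^ x) (2 ^ y) ↔ Cert x y := by
  unfold CertR Cert
  have e : (2 : ℤ) ^ (2 * x) = 2 ^ x * 2 ^ x := by rw [two_mul, pow_add]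
  rw [e]
  constructor
  · rintro ⟨-, -, h⟩; exact h
  · intro h
    refine ⟨⟨x, rfl⟩, ⟨y - 1, ?_⟩, h⟩
    rw [← pow_succ]
    congr 1
    omega

theorem zd_cert : ZD (fun w : Fin 2 → ℤ => CertR (w 0) (w 1)) := by
  have X := ZT.var (Sum.inl 0 : Fin 2 ⊕ Fin 2)
  have Y := ZT.var (Sum.inl 1 : Fin 2 ⊕ Fin 2)
  have z := ZT.var (Sum.inr 0 : Fin 2 ⊕ Fin 2)
  have r := ZT.var (Sum.inr 1 : Fin 2 ⊕ Fin 2)
  have c1 := ZT.pred3 (S := SqM) zd_sqM Y z r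
  have c2 := ZT.pred2 (S := fun a b => IsPow a ∧ (a - 1) ∣ b) zd_dvd Y
    (ZT.sub (ZT.mul (ZT.mul X X) (ZT.add r ZT.one)) (ZT.add r ZT.one))
  refine (ZD.exs (δ := Fin 2) (c1.and c2)).congr fun w => ?_
  unfold CertR
  constructor
  · rintro ⟨h1, h2, z, h3⟩
    refine ⟨![z, z * z], ?_⟩
    simp only [Sum.elim_inl, Sum.elim_inr, true_and, and_true, Matrix.cons_val_zero,
      Matrix.cons_val_one, Matrix.cons_val]
    refine ⟨⟨h2, by simp⟩, ⟨h1, isPow_mul h1 h1⟩, isPow_of_dv2 h2, ?_⟩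
    convert h3 using 1
    ring
  · rintro ⟨y, h⟩
    simp only [Sum.elim_inl, Sum.elim_inr, true_and, and_true] at h
    obtain ⟨⟨h1, h2⟩, ⟨h3, h4⟩, h5, h6⟩ := h
    refine ⟨h3, h1, y 0, ?_⟩
    have : (y 0 * y 0 + 1) * (w 0 * w 0 - 1) =
      (w 0 * w 0 * (y 1 + 1) - (y 1 + 1)) - (y 1 - y 0 * y 0) * (w 0 * w 0 - 1) := by ring
    rw [this]
    exact dvd_sub h6 (Dvd.dvd.mul_right h2 _)

/-- `u = 2 ^ (2 ^ s)`, `s ≥ 1` -/
def P2 (u : ℤ) : Prop := ∃ s : ℕ, u = 2 ^ (2 ^ (s + 1))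

theorem p2_iff (u : ℤ) : P2 u ↔ Dv 2 u ∧ (3 : ℤ) ∣ u - 1 ∧ CertR 2 u := by
  constructor
  · rintro ⟨s, rfl⟩
    have h := (pow2_iff (2 ^ (s + 1)) Nat.one_le_two_pow).1 ⟨s, rfl⟩
    have hc : CertR 2 (2 ^ (2 ^ (s + 1))) := by
      have := (certR_iff 1 (2 ^ (s + 1)) Nat.one_le_two_pow).2 h.2
      simpa using this
    refine ⟨hc.2.1, ?_, hc⟩
    have := (dvd_exp_iff 2 (2 ^ (s + 1)) (by norm_num)).2 h.1
    norm_num at this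
    exact this
  · rintro ⟨⟨a, ha⟩, h3, hc⟩
    have hu : u = 2 ^ (a + 1) := by rw [ha, pow_succ]
    subst hu
    have h2 : 2 ∣ a + 1 := by
      apply (dvd_exp_iff 2 (a + 1) (by norm_num)).1
      norm_num
      exact h3
    have hc' : Cert 1 (a + 1) := by
      rw [← certR_iff 1 (a + 1) (by omega)]
      simpa using hc
    obtain ⟨s, hs⟩ := (pow2_iff (a + 1) (by omega)).2 ⟨h2, hc'⟩
    exact ⟨s, by rw [hs]⟩

theorem zd_p2 : ZD (fun w : Fin 1 → ℤ => P2 (w 0)) := by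
  have u := ZT.var (0 : Fin 1)
  have c1 := ZT.dv (zt_num 2 (by norm_num)) u
  have c2 := ZT.pred2 (S := fun a b => IsPow a ∧ (a - 1) ∣ b) zd_dvd
    (zt_num (α := Fin 1) 4 (by norm_num)) (ZT.sub u ZT.one)
  have c3 := ZT.pred2 (S := CertR) zd_cert (zt_num (α := Fin 1) 2 (by norm_num)) u
  refine (c1.and (c2.and c3)).congr fun w => ?_
  rw [p2_iff]
  simp only [true_and, and_true]
  norm_num
  intro _ _ _
  exact ⟨2, by norm_num⟩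

theorem ZT.pred1 {α : Type} {D : (α → ℤ) → Prop} {f : (α → ℤ) → ℤ} {S : ℤ → Prop}
    (h : ZD (fun w : Fin 1 → ℤ => S (w 0))) (hf : ZT D f) :
    ZD (fun v : α → ℤ => D v ∧ S (f v)) := by
  have h1 : ZD (fun w : Option α → ℤ => S (w none)) :=
    ZD.reindex h (fun _ : Fin 1 => (none : Option α))
  exact ZT.subst (α := α) (S := fun x _ => S x) hf h1

end Pool.Agent.H395R5
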