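import Mathlib
import Pool.Agent.H395R5.ZC2

/-!
Squares of exponents are definable.
-/

set_option autoImplicit false

namespace Pool.Agent.H395R5

theorem two_inj {a b : ℕ} (h : (2 : ℤ) ^ a = 2 ^ b) : a = b :=
  pow_right_injective₀ (by norm_num : (0 : ℤ) < 2) (by norm_num) h

theorem dv_pow {a b : ℕ} (h : a ≤ b) : Dv (2 ^ a) (2 ^ b) :=
  ⟨b - a, by rw [← pow_add]; congr 1; omega⟩

theorem le_of_dv {a b : ℕ} (h : Dv (2 ^ a) (2 ^ b)) : a ≤ b := by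
  obtain ⟨s, hs⟩ := h
  rw [← pow_add] at hs
  have := two_inj hs
  omega

/-- `u = 2 ^ Q`, `w = 2 ^ (Q ^ 2)`, `Q = 2 ^ s`, `s ≥ 2` -/
def SqQ (u w : ℤ) : Prop := ∃ s : ℕ, 2 ≤ s ∧ u = 2 ^ (2 ^ s) ∧ w = 2 ^ (2 ^ s * 2 ^ s)

theorem sqQ_iff (u w : ℤ) : SqQ u w ↔ P2 u ∧ Dv 16 u ∧ P2 w ∧ Dv u w ∧
    ((u + u) - 1 ∣ w * u - 1) ∧ CertR (u + u) (w * u) := by
  have key : ∀ Q Q' : ℕ, (2 : ℤ) ^ Q + 2 ^ Q = 2 ^ (Q + 1) ∧
      (2 : ℤ) ^ Q' * 2 ^ Q = 2 ^ (Q' + Q) := by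
    intro Q Q'
    exact ⟨by rw [pow_succ]; ring, by rw [pow_add]⟩
  constructor
  · rintro ⟨s, hs, rfl, rfl⟩
    obtain ⟨k, rfl⟩ : ∃ k, s = k + 1 := ⟨s - 1, by omega⟩
    have hk : 1 ≤ k := by omega
    have h4 : 4 ≤ 2 ^ (k + 1) := by
      have : 2 ^ 2 ≤ 2 ^ (k + 1) := Nat.pow_le_pow_right (by norm_num) hs
      simpa using this
    obtain ⟨c1, c2⟩ := sqQ_complete (k + 1) (by omega)
    obtain ⟨k1, k2⟩ := key (2 ^ (k + 1)) (2 ^ (k + 1) * 2 ^ (k + 1))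
    refine ⟨⟨k, rfl⟩, ?_, ⟨k + k + 1, ?_⟩, ?_, ?_, ?_⟩
    · have := dv_pow h4
      norm_num at this ⊢
      exact this
    · congr 1
      rw [← pow_add]
      congr 1
      omega
    · apply dv_pow
      exact Nat.le_mul_of_pos_right _ (by positivity)
    · rw [k1, k2]
      exact (dvd_exp_iff _ _ (by omega)).2 c1
    · rw [k1, k2]
      exact (certR_iff _ _ (by omega)).2 c2
  · rintro ⟨⟨s, rfl⟩, h16, ⟨t, rfl⟩, hd, h1, h2⟩
    have e16 : (16 : ℤ) = 2 ^ 4 := by norm_num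
    rw [e16] at h16
    have h4 := le_of_dv h16
    have hs : 1 ≤ s := by
      by_contra hc
      have : s = 0 := by omega
      rw [this] at h4
      norm_num at h4
    have hle := le_of_dv hd
    have hst : s + 1 ≤ t + 1 := by
      by_contra hc
      have : 2 ^ (t + 1) < 2 ^ (s + 1) := Nat.pow_lt_pow_right (by norm_num) (by omega)
      omega
    obtain ⟨r, hr⟩ : ∃ r, t + 1 = (s + 1) + r := ⟨t - s, by omega⟩
    obtain ⟨k1, k2⟩ := key (2 ^ (s + 1)) (2 ^ (t + 1))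
    rw [k1, k2] at h1 h2
    have pos : 1 ≤ 2 ^ (s + 1) := Nat.one_le_two_pow
    have h1' := (dvd_exp_iff _ _ (by omega)).1 h1
    have h2' := (certR_iff _ _ (by omega)).1 h2
    rw [hr, pow_add 2 (s + 1) r] at h1' h2'
    have := sqQ_sound (s + 1) r (by omega) h1' h2'
    refine ⟨s + 1, by omega, rfl, ?_⟩
    rw [hr, this, pow_add 2 (s + 1) (s + 1)]

theorem isPow_p2 {u : ℤ} (h : P2 u) : IsPow u := by
  obtain ⟨s, rfl⟩ := h
  exact ⟨_, rfl⟩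

theorem zd_sqQ : ZD (fun w : Fin 2 → ℤ => SqQ (w 0) (w 1)) := by
  have u := ZT.var (0 : Fin 2)
  have w := ZT.var (1 : Fin 2)
  have c1 := ZT.pred1 (S := P2) zd_p2 u
  have c2 := ZT.dv (zt_num 16 (by norm_num)) u
  have c3 := ZT.pred1 (S := P2) zd_p2 w
  have c4 := ZT.dv u w
  have c5 := ZT.pred2 (S := fun a b => IsPow a ∧ (a - 1) ∣ b) zd_dvd
    (ZT.add u u) (ZT.sub (ZT.mul w u) ZT.one)
  have c6 := ZT.pred2 (S := CertR) zd_cert (ZT.add u u) (ZT.mul w u)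
  refine (c1.and (c2.and (c3.and (c4.and (c5.and c6))))).congr fun v => ?_
  rw [sqQ_iff]
  simp only [true_and, and_true, Nat.cast_ofNat]
  constructor
  · rintro ⟨h1, h2, h3, h4, h5, h6⟩
    have hw := isPow_p2 h3
    exact ⟨h1, h2, h3, h4, ⟨hw, h6.1, h5⟩, hw, h6⟩
  · rintro ⟨h1, h2, h3, h4, ⟨_, _, h5⟩, _, h6⟩
    exact ⟨h1, h2, h3, h4, h5, h6⟩

/-- `t = 2 ^ x`, `w = 2 ^ (x ^ 2)`, `x ≥ 7` -/
def SqE (t w : ℤ) : Prop := ∃ x : ℕ, 7 ≤ x ∧ t = 2 ^ x ∧ w = 2 ^ (x * x)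

theorem sqE_iff (t w : ℤ) : SqE t w ↔ ∃ q q' t' w' : ℤ, SqQ q q' ∧ Dv 128 t ∧ Dv q (t * t) ∧
    Dv t w ∧ Dv w q' ∧ (t - 1 ∣ w - 1) ∧ ((t + t) - 1 ∣ w * t - 1) ∧ t = t' + t' ∧ w = t * w' ∧
    (IsPow t' ∧ t' - 1 ∣ w' - 1) := by
  constructor
  · rintro ⟨x, hx, rfl, rfl⟩
    obtain ⟨s, hs, h1, h2⟩ := exists_pow x hx
    obtain ⟨k, rfl⟩ : ∃ k, x = k + 1 := ⟨x - 1, by omega⟩
    have hxx : k + 1 ≤ (k + 1) * (k + 1) := Nat.le_mul_of_pos_right _ (by omega)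
    refine ⟨2 ^ (2 ^ s), 2 ^ (2 ^ s * 2 ^ s), 2 ^ k, 2 ^ (k * (k + 1)), ⟨s, hs, rfl, rfl⟩,
      ?_, ?_, ?_, ?_, ?_, ?_, ?_, ?_, ⟨k, rfl⟩, ?_⟩
    · have := dv_pow hx
      norm_num at this ⊢
      exact this
    · rw [← pow_add]
      exact dv_pow (by omega)
    · exact dv_pow hxx
    · exact dv_pow (Nat.mul_le_mul h1 h1)
    · exact (dvd_exp_iff _ _ (by omega)).2 (Dvd.intro _ rfl)
    · have e : (2 : ℤ) ^ (k + 1) + 2 ^ (k + 1) = 2 ^ (k + 1 + 1) := by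
        rw [pow_succ 2 (k + 1)]; ring
      rw [e, ← pow_add]
      refine (dvd_exp_iff _ _ (by omega)).2 ⟨k + 1, by ring⟩
    · rw [pow_succ]; ring
    · rw [← pow_add]; congr 1; ring
    · rcases Nat.eq_zero_or_pos k with rfl | hk
      · simp
      · exact (dvd_exp_iff _ _ hk).2 (Dvd.intro _ rfl)
  · rintro ⟨q, q', t', w', ⟨s, hs, rfl, rfl⟩, h128, hq, htw, hwq, h1, h2, h3, h4, ⟨k, rfl⟩, h5⟩
    have ht : t = 2 ^ (k + 1) := by rw [h3, pow_succ]; ring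
    subst ht
    obtain ⟨j, hj⟩ := htw
    rw [← pow_add] at hj
    have e128 : (128 : ℤ) = 2 ^ 7 := by norm_num
    rw [e128] at h128
    have h7 := le_of_dv h128
    rw [← pow_add] at hq
    have hQ := le_of_dv hq
    have hw' : w' = 2 ^ j := by
      have : (2 : ℤ) ^ (k + 1) * w' = 2 ^ (k + 1) * 2 ^ j := by
        rw [← h4, hj, pow_add]; ring
      exact mul_left_cancel₀ (by positivity) this
    subst hj
    subst hw'
    have hy := le_of_dv hwq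
    have d1 := (dvd_exp_iff _ _ (by omega)).1 h1
    have e : (2 : ℤ) ^ (k + 1) + 2 ^ (k + 1) = 2 ^ (k + 1 + 1) := by
      rw [pow_succ 2 (k + 1)]; ring
    rw [e, ← pow_add] at h2
    have d2 := (dvd_exp_iff _ _ (by omega)).1 h2
    have d3 := (dvd_exp_iff _ _ (by omega)).1 h5
    refine ⟨k + 1, h7, rfl, ?_⟩
    congr 1
    have := sq_exp ((k + 1 : ℕ) : ℤ) ((j + (k + 1) : ℕ) : ℤ) ((2 ^ s : ℕ) : ℤ)
      (by exact_mod_cast h7) (by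
        have : 2 ^ s ≤ 2 * (k + 1) := by omega
        exact_mod_cast this) (by positivity) (by exact_mod_cast hy) (by positivity)
      (by exact_mod_cast d1) (by exact_mod_cast d2) (by
        have e1 : ((k + 1 : ℕ) : ℤ) - 1 = (k : ℤ) := by push_cast; ring
        have e2 : ((j + (k + 1) : ℕ) : ℤ) - ((k + 1 : ℕ) : ℤ) = (j : ℤ) := by push_cast; ring
        rw [e1, e2]
        exact_mod_cast d3)
    exact_mod_cast this

theorem zd_sqE : ZD (fun w : Fin 2 → ℤ => SqE (w 0) (w 1)) := by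
  have t := ZT.var (Sum.inl 0 : Fin 2 ⊕ Fin 4)
  have w := ZT.var (Sum.inl 1 : Fin 2 ⊕ Fin 4)
  have q := ZT.var (Sum.inr 0 : Fin 2 ⊕ Fin 4)
  have q' := ZT.var (Sum.inr 1 : Fin 2 ⊕ Fin 4)
  have t' := ZT.var (Sum.inr 2 : Fin 2 ⊕ Fin 4)
  have w' := ZT.var (Sum.inr 3 : Fin 2 ⊕ Fin 4)
  have c1 := ZT.pred2 (S := SqQ) zd_sqQ q q'
  have c2 := ZT.dv (zt_num 128 (by norm_num)) t
  have c3 := ZT.dv q (ZT.mul t t)
  have c4 := ZT.dv t w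
  have c5 := ZT.dv w q'
  have c6 := ZT.pred2 (S := fun a b => IsPow a ∧ (a - 1) ∣ b) zd_dvd t (ZT.sub w ZT.one)
  have c7 := ZT.pred2 (S := fun a b => IsPow a ∧ (a - 1) ∣ b) zd_dvd
    (ZT.add t t) (ZT.sub (ZT.mul w t) ZT.one)
  have c8 := ZT.eq t (ZT.add t' t')
  have c9 := ZT.eq w (ZT.mul t w')
  have c10 := ZT.pred2 (S := fun a b => IsPow a ∧ (a - 1) ∣ b) zd_dvd t' (ZT.sub w' ZT.one)
  refine (ZD.exs (δ := Fin 4) (c1.and (c2.and (c3.and (c4.and (c5.and (c6.and (c7.and (c8.and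
    (c9.and c10)))))))))).congr fun v => ?_
  rw [sqE_iff]
  constructor
  · rintro ⟨q, q', t', w', h1, h2, h3, h4, h5, h6, h7, h8, h9, h10⟩
    refine ⟨![q, q', t', w'], ?_⟩
    have ht : IsPow (v 0) := isPow_of_dv (x := 128) ⟨7, by norm_num⟩ h2
    have hw : IsPow (v 1) := isPow_of_dv ht h4
    have htt : IsPow (v 0 + v 0) := by
      obtain ⟨a, ha⟩ := ht
      exact ⟨a + 1, by rw [ha, pow_succ]; ring⟩
    simp only [Sum.elim_inl, Sum.elim_inr, true_and, and_true, Matrix.cons_val_zero,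
      Matrix.cons_val_one, Matrix.cons_val, Nat.cast_ofNat]
    exact ⟨h1, h2, ⟨ht, h3⟩, h4, h5, ⟨ht, h6⟩, ⟨hw, htt, h7⟩, h8, ⟨ht, h9⟩, h10⟩
  · rintro ⟨y, h⟩
    simp only [Sum.elim_inl, Sum.elim_inr, true_and, and_true, Nat.cast_ofNat] at h
    obtain ⟨h1, h2, ⟨-, h3⟩, h4, h5, ⟨-, h6⟩, ⟨-, -, h7⟩, h8, ⟨-, h9⟩, h10⟩ := h
    exact ⟨_, _, _, _, h1, h2, h3, h4, h5, h6, h7, h8, h9, h10⟩

end Pool.Agent.H395R5
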