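import Mathlib
import Pool.Agent.H395R5.ZC3
import Pool.Agent.Helper844.DPRM

/-!
Recursively enumerable sets are existentially definable on exponents
(the second half follows `Pool.Agent.H669R3.XPDef` and `XPMul`).
-/

set_option autoImplicit false

namespace Pool.Agent.H395R5

/-- positivity -/
def Pos {V : Type} (v : V → ℕ) : Prop := ∀ i, 0 < v i

/-- the powers of two with the given exponents -/
def pw {V : Type} (v : V → ℕ) : V → ℤ := fun i => 2 ^ v i

/-- predicates on positive exponents that are definable over `(ℤ, +, |₂, 1)` -/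
def PD {α : Type} (S : (α → ℕ) → Prop) : Prop :=
  ∃ T : (α → ℤ) → Prop, ZD T ∧ ∀ v : α → ℕ, Pos v → (S v ↔ T (pw v))

theorem PD.congr {α : Type} {S T : (α → ℕ) → Prop} (h : PD S)
    (e : ∀ v, Pos v → (T v ↔ S v)) : PD T := by
  obtain ⟨Z, i, hL⟩ := h
  exact ⟨Z, i, fun v hv => (e v hv).trans (hL v hv)⟩

theorem PD.and {α : Type} {S T : (α → ℕ) → Prop} (hS : PD S) (hT : PD T) :
    PD (fun v => S v ∧ T v) := by
  obtain ⟨Z₁, i₁, h₁⟩ := hS
  obtain ⟨Z₂, i₂, h₂⟩ := hT
  exact ⟨fun v => Z₁ v ∧ Z₂ v, i₁.and i₂, fun v hv => and_congr (h₁ v hv) (h₂ v hv)⟩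

theorem PD.reindex {α β : Type} {S : (α → ℕ) → Prop} (h : PD S) (f : α → β) :
    PD (fun v : β → ℕ => S (v ∘ f)) := by
  obtain ⟨Z, i, hZ⟩ := h
  refine ⟨fun v => Z (v ∘ f), i.reindex f, fun v hv => ?_⟩
  exact hZ (v ∘ f) (fun i => hv _)

theorem ZD.true' {α : Type} : ZD (fun _ : α → ℤ => True) := by
  refine ⟨Empty, inferInstance, [], fun v => ?_⟩
  simp only [List.not_mem_nil, false_implies, implies_true, true_iff]
  exact ⟨Empty.elim, trivial⟩

theorem ZD.all {α δ : Type} [Fintype δ] {S : δ → (α → ℤ) → Prop} (h : ∀ d, ZD (S d)) :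
    ZD (fun v => ∀ d, S d v) := by
  have key : ∀ l : List δ, ZD (fun v => ∀ d ∈ l, S d v) := by
    intro l
    induction l with
    | nil => exact ZD.true'.congr fun v => by simp
    | cons a l ih => exact ((h a).and ih).congr fun v => by simp
  exact (key Finset.univ.toList).congr fun v => by simp

theorem PD.exs {α δ : Type} [Fintype δ] {S : (α ⊕ δ → ℕ) → Prop} (h : PD S) :
    PD (fun v : α → ℕ => ∃ t : δ → ℕ, Pos t ∧ S (Sum.elim v t)) := by
  obtain ⟨Z, i, hZ⟩ := h
  have a1 : ZD (fun v : α ⊕ δ → ℤ => ∀ d : δ, Dv 2 (v (Sum.inr d))) := by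
    refine ZD.all fun d => ?_
    refine (ZT.dv (zt_num (α := α ⊕ δ) 2 (by norm_num)) (ZT.var (Sum.inr d))).congr fun v => ?_
    simp
  refine ⟨_, ZD.exs (a1.and i), fun v hv => ?_⟩
  have pe : ∀ t : δ → ℕ, Pos t → Pos (Sum.elim v t) := by
    intro t ht i
    rcases i with i | i
    · exact hv i
    · exact ht i
  have ee : ∀ t : δ → ℕ, pw (Sum.elim v t) = Sum.elim (pw v) (pw t) := by
    intro t
    funext i
    rcases i with i | i <;> rfl
  constructor
  · rintro ⟨t, ht, hS⟩
    refine ⟨pw t, fun d => ?_, ?_⟩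
    · have : 1 ≤ t d := ht d
      exact dv_pow this
    · rw [← ee]
      exact (hZ _ (pe t ht)).1 hS
  · rintro ⟨y, hy, hZy⟩
    have : ∀ d, ∃ n : ℕ, y d = 2 ^ (n + 1) := by
      intro d
      obtain ⟨s, hs⟩ := hy d
      exact ⟨s, by rw [pow_succ]; exact hs⟩
    choose n hn using this
    have e : y = pw (fun d => n d + 1) := by
      funext d
      exact hn d
    have hp : Pos (fun d => n d + 1) := fun d => Nat.succ_pos _
    refine ⟨fun d => n d + 1, hp, ?_⟩
    rw [hZ _ (pe _ hp), ee, ← e]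
    exact hZy

/-- one existential variable -/
theorem PD.ex {α : Type} {S : ℕ → (α → ℕ) → Prop}
    (h : PD (fun w : Option α → ℕ => S (w none) (w ∘ some))) :
    PD (fun v : α → ℕ => ∃ x, 0 < x ∧ S x v) := by
  have h' := PD.exs (α := α) (δ := Unit) (PD.reindex h
    (fun o : Option α => match o with | none => Sum.inr () | some a => Sum.inl a))
  refine h'.congr fun v _ => ?_
  constructor
  · rintro ⟨x, hx, hS⟩
    exact ⟨fun _ => x, fun _ => hx, hS⟩
  · rintro ⟨t, ht, hS⟩
    exact ⟨t (), ht (), hS⟩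

/-- definable positive functions -/
def PF {α : Type} (f : (α → ℕ) → ℕ) : Prop :=
  (∀ v, Pos v → 0 < f v) ∧ PD (fun w : Option α → ℕ => w none = f (w ∘ some))

/-- substituting a definable function -/
theorem PD.subst {α : Type} {S : ℕ → (α → ℕ) → Prop} {f : (α → ℕ) → ℕ}
    (h : PD (fun w : Option α → ℕ => S (w none) (w ∘ some))) (hf : PF f) :
    PD (fun v : α → ℕ => S (f v) v) := by
  have := PD.ex (S := fun x v => x = f v ∧ S x v) (PD.and hf.2 h)
  refine this.congr fun v hv => ?_
  constructor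
  · intro h
    exact ⟨f v, hf.1 v hv, rfl, h⟩
  · rintro ⟨x, _, rfl, h⟩
    exact h

theorem PD.subst2 {α : Type} {S : ℕ → ℕ → Prop} {f g : (α → ℕ) → ℕ}
    (h : PD (fun w : Bool → ℕ => S (w true) (w false))) (hf : PF f) (hg : PF g) :
    PD (fun v : α → ℕ => S (f v) (g v)) := by
  have hf' : PF (fun w : Option α → ℕ => f (w ∘ some)) := by
    refine ⟨fun v hv => hf.1 _ (fun i => hv _), ?_⟩
    have := PD.reindex hf.2 (fun o : Option α => match o with
      | none => (none : Option (Option α)) | some a => some (some a))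
    exact this
  have h1 : PD (fun w : Option (Option α) → ℕ => S (w none) (w (some none))) := by
    have := PD.reindex h (fun b : Bool => if b then (none : Option (Option α)) else some none)
    exact this
  have h2 := PD.subst (α := Option α) (S := fun x w => S x (w none)) h1 hf'
  have h3 := PD.subst (α := α) (S := fun x v => S (f v) x) h2 hg
  exact h3

theorem pd_eqVar : PD (fun w : Bool → ℕ => w true = w false) := by
  refine ⟨fun w => w true = w false, ?_, fun v _ => ?_⟩
  · exact ZD.reindex ZD.eqVar (![true, false] : Fin 2 → Bool)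
  · constructor
    · intro h
      simp only [pw, h]
    · intro h
      exact two_inj h

theorem PF.var {α : Type} (i : α) : PF (fun v : α → ℕ => v i) := by
  refine ⟨fun v hv => hv i, ?_⟩
  have := PD.reindex pd_eqVar (fun b : Bool => if b then (none : Option α) else some i)
  exact this

theorem PF.congr {α : Type} {f g : (α → ℕ) → ℕ} (h : PF f) (e : ∀ v, Pos v → g v = f v) :
    PF g := by
  refine ⟨fun v hv => by rw [e v hv]; exact h.1 v hv, h.2.congr fun w hw => ?_⟩
  rw [e (w ∘ some) (fun i => hw _)]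

theorem PF.lift {α : Type} {f : (α → ℕ) → ℕ} (hf : PF f) :
    PF (fun w : Option α → ℕ => f (w ∘ some)) := by
  refine ⟨fun v hv => hf.1 _ (fun i => hv _), ?_⟩
  have := PD.reindex hf.2 (fun o : Option α => match o with
    | none => (none : Option (Option α)) | some a => some (some a))
  exact this

theorem PF.op {α : Type} {f g : (α → ℕ) → ℕ} {o : ℕ → ℕ → ℕ}
    (ho : ∀ x y, 0 < x → 0 < y → 0 < o x y)
    (h : PD (fun w : Fin 3 → ℕ => w 0 = o (w 1) (w 2))) (hf : PF f) (hg : PF g) :
    PF (fun v => o (f v) (g v)) := by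
  refine ⟨fun v hv => ho _ _ (hf.1 v hv) (hg.1 v hv), ?_⟩
  have hf' := PF.lift hf
  have hg' := PF.lift hg
  have hf'' := PF.lift hf'
  have h1 : PD (fun w : Option (Option (Option α)) → ℕ =>
      w (some (some none)) = o (w none) (w (some none))) := by
    have := PD.reindex h (fun b : Fin 3 => (![some (some none), none, some none] b :
      Option (Option (Option α))))
    exact this
  have h2 := PD.subst (α := Option (Option α)) (S := fun x w => w (some none) = o x (w none)) h1 hf''
  have h3 := PD.subst (α := Option α) (S := fun x v => v none = o (f (v ∘ some)) x) h2 hg'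
  exact h3

theorem PF.add {α : Type} {f g : (α → ℕ) → ℕ} (hf : PF f) (hg : PF g) :
    PF (fun v => f v + g v) := by
  refine PF.op (o := fun x y => x + y) (fun _ _ h _ => by omega) ?_ hf hg
  refine ⟨_, zd_mp, fun v _ => ?_⟩
  simp only [pw]
  constructor
  · intro h
    exact ⟨⟨_, rfl⟩, by rw [h, pow_add]⟩
  · rintro ⟨_, h⟩
    rw [← pow_add] at h
    exact two_inj h

theorem PF.one {α : Type} : PF (fun _ : α → ℕ => 1) := by
  refine ⟨fun _ _ => Nat.one_pos, _,
    ZT.eq (ZT.var (none : Option α)) (zt_num 2 (by norm_num)), fun v _ => ?_⟩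
  simp only [true_and, pw, Nat.cast_ofNat]
  constructor
  · intro h
    rw [h]; norm_num
  · intro h
    have : (2 : ℤ) ^ v none = 2 ^ 1 := by rw [h]; norm_num
    exact two_inj this

theorem PF.const {α : Type} (n : ℕ) : PF (fun _ : α → ℕ => n + 1) := by
  induction n with
  | zero => exact PF.one
  | succ n ih => exact PF.add ih PF.one

theorem PF.smul {α : Type} {f : (α → ℕ) → ℕ} (hf : PF f) (n : ℕ) :
    PF (fun v => (n + 1) * f v) := by
  induction n with
  | zero => simpa using hf
  | succ n ih =>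
    refine (PF.add ih hf).congr fun v _ => ?_
    ring

theorem PD.eq {α : Type} {f g : (α → ℕ) → ℕ} (hf : PF f) (hg : PF g) :
    PD (fun v => f v = g v) :=
  PD.subst2 (S := fun x y => x = y) pd_eqVar hf hg

theorem PD.sq {α : Type} {f g : (α → ℕ) → ℕ} (hf : PF f) (hg : PF g) :
    PD (fun v => 7 ≤ f v ∧ g v = f v * f v) := by
  refine PD.subst2 (S := fun a b => 7 ≤ a ∧ b = a * a) ?_ hf hg
  refine ⟨_, ZD.reindex zd_sqE (![true, false] : Fin 2 → Bool), fun v _ => ?_⟩
  constructor
  · rintro ⟨h1, h2⟩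
    exact ⟨v true, h1, rfl, by simp [pw, h2]⟩
  · rintro ⟨x, h1, h2, h3⟩
    have e1 : v true = x := two_inj h2
    have e2 : v false = x * x := two_inj h3
    rw [e1]
    exact ⟨h1, e2⟩

/-- squares shifted by seven -/
theorem PF.sq7 {α : Type} {f : (α → ℕ) → ℕ} (hf : PF f) :
    PF (fun v => (f v + 7) * (f v + 7)) := by
  refine ⟨fun v _ => by positivity, ?_⟩
  refine (PD.sq (PF.add (PF.lift hf) (PF.const 6)) (PF.var (none : Option α))).congr fun w hw => ?_
  constructor
  · intro h
    exact ⟨by omega, h⟩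
  · rintro ⟨_, h⟩
    exact h

theorem PF.mul {α : Type} {f g : (α → ℕ) → ℕ} (hf : PF f) (hg : PF g) :
    PF (fun v => f v * g v) := by
  refine PF.op (o := fun x y => x * y) (fun _ _ h h' => Nat.mul_pos h h') ?_ hf hg
  have va : PF (fun w : Fin 3 → ℕ => w 1) := PF.var _
  have vb : PF (fun w : Fin 3 → ℕ => w 2) := PF.var _
  have vc : PF (fun w : Fin 3 → ℕ => w 0) := PF.var _
  have lhs := PF.sq7 (PF.add (PF.add va vb) (PF.const 6))
  have rhs := PF.add (PF.add (PF.sq7 va) (PF.sq7 vb))
    (PF.smul (PF.add (PF.add vc (PF.smul va 6)) (PF.add (PF.smul vb 6) (PF.const 48))) 1)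
  refine (PD.eq lhs rhs).congr fun w _ => ?_
  constructor
  · intro h
    rw [h]; ring
  · intro h
    nlinarith

/-- every integer polynomial is a difference of two definable positive functions -/
theorem poly_pf {γ : Type} (p : Poly γ) : ∃ F G : (γ → ℕ) → ℕ, PF F ∧ PF G ∧
    ∀ v : γ → ℕ, Pos v → p (fun i => v i - 1) = (F v : ℤ) - G v := by
  refine Poly.induction (C := fun p => ∃ F G : (γ → ℕ) → ℕ, PF F ∧ PF G ∧
    ∀ v : γ → ℕ, Pos v → p (fun i => v i - 1) = (F v : ℤ) - G v) ?_ ?_ ?_ ?_ p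
  · intro i
    refine ⟨fun v => v i, fun _ => 1, PF.var i, PF.one, fun v hv => ?_⟩
    have := hv i
    rw [Poly.proj_apply]
    push_cast [Nat.cast_sub (show 1 ≤ v i from this)]
    ring
  · intro n
    refine ⟨fun _ => n.toNat + 1, fun _ => (-n).toNat + 1, PF.const _, PF.const _, fun v _ => ?_⟩
    rw [Poly.const_apply]
    push_cast
    rcases le_total 0 n with h | h
    · rw [Int.toNat_of_nonneg h, Int.toNat_of_nonpos (by omega)]; ring
    · rw [Int.toNat_of_nonpos h, Int.toNat_of_nonneg (by omega)]; ring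
  · rintro p q ⟨F₁, G₁, f₁, g₁, h₁⟩ ⟨F₂, G₂, f₂, g₂, h₂⟩
    refine ⟨_, _, PF.add f₁ g₂, PF.add g₁ f₂, fun v hv => ?_⟩
    rw [Poly.sub_apply, h₁ v hv, h₂ v hv]
    push_cast
    ring
  · rintro p q ⟨F₁, G₁, f₁, g₁, h₁⟩ ⟨F₂, G₂, f₂, g₂, h₂⟩
    refine ⟨_, _, PF.add (PF.mul f₁ f₂) (PF.mul g₁ g₂), PF.add (PF.mul f₁ g₂) (PF.mul g₁ f₂),
      fun v hv => ?_⟩
    rw [Poly.mul_apply, h₁ v hv, h₂ v hv]
    push_cast
    ring

open Dioph in
/-- Diophantine sets are definable -/
theorem pd_of_dioph {S : ℕ → Prop} (hS : Dioph {v : Unit → ℕ | S (v ())}) :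
    PD (fun v : Unit → ℕ => S (v () - 1)) := by
  obtain ⟨δ, _, p, hp⟩ := Pool.Agent.Helper844.Dio.finite_dummies hS
  obtain ⟨F, G, hF, hG, h⟩ := poly_pf p
  refine (PD.exs (PD.eq hF hG)).congr fun v hv => ?_
  have h1 := hp (fun _ => v () - 1)
  change S (v () - 1) ↔ _ at h1
  rw [h1]
  constructor
  · rintro ⟨t, ht⟩
    refine ⟨fun i => t i + 1, fun i => Nat.succ_pos _, ?_⟩
    have h2 := h (Sum.elim v (fun i => t i + 1)) (by
      rintro (i | i)
      · exact hv i
      · exact Nat.succ_pos _)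
    have e : (fun i => Sum.elim v (fun i => t i + 1) i - 1) =
        Sum.elim (fun _ => v () - 1) t := by
      funext i
      rcases i with i | i
      · rfl
      · simp
    rw [e, ht] at h2
    omega
  · rintro ⟨t, ht, hFG⟩
    refine ⟨fun i => t i - 1, ?_⟩
    have h2 := h (Sum.elim v t) (by
      rintro (i | i)
      · exact hv i
      · exact ht i)
    have e : (fun i => Sum.elim v t i - 1) =
        Sum.elim (fun _ => v () - 1) (fun i => t i - 1) := by
      funext i
      rcases i with i | i <;> rfl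
    rw [e] at h2
    rw [h2, hFG]
    ring

end Pool.Agent.H395R5
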