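import Mathlib
import Pool.Agent.H395R5.ZD1

/-!
Translation of systems of constraints into the format of the frozen statement, and the reduction.
-/

set_option autoImplicit false

namespace Pool.Agent.H395R5

/-- the value of a linear form -/
def ev (l : List ℕ) (x : ℕ → ℤ) : ℤ := ∑ i ∈ Finset.range l.length, ((l.getD i 0 : ℕ) : ℤ) * x i

theorem ev_map (n : ℕ) (f : ℕ → ℕ) (x : ℕ → ℤ) :
    ev ((List.range n).map f) x = ∑ i ∈ Finset.range n, (f i : ℤ) * x i := by
  unfold ev
  rw [List.length_map, List.length_range]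
  refine Finset.sum_congr rfl fun i hi => ?_
  rw [Finset.mem_range] at hi
  rw [List.getD_eq_getElem?_getD, List.getElem?_map, List.getElem?_range hi]
  rfl

/-- the linear form `x i` -/
def unit (i : ℕ) : List ℕ := (List.range (i + 1)).map (fun k => if k = i then 1 else 0)

/-- the linear form `x i + x j` -/
def two (i j : ℕ) : List ℕ := (List.range (i + j + 1)).map
  (fun k => (if k = i then 1 else 0) + (if k = j then 1 else 0))

theorem ev_unit (i : ℕ) (x : ℕ → ℤ) : ev (unit i) x = x i := by
  unfold unit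
  rw [ev_map, Finset.sum_eq_single i]
  · simp
  · intro b _ hb
    simp [hb]
  · intro h
    exact absurd (Finset.mem_range.2 (by omega)) h

theorem ev_two (i j : ℕ) (x : ℕ → ℤ) : ev (two i j) x = x i + x j := by
  unfold two
  rw [ev_map]
  have e : ∀ k, (((if k = i then 1 else 0) + (if k = j then 1 else 0) : ℕ) : ℤ) * x k =
      (if k = i then x k else 0) + (if k = j then x k else 0) := by
    intro k
    split_ifs <;> simp <;> ring
  simp only [e]
  rw [Finset.sum_add_distrib, Finset.sum_ite_eq', Finset.sum_ite_eq',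
    if_pos (Finset.mem_range.2 (by omega)), if_pos (Finset.mem_range.2 (by omega))]

/-- the format of the frozen statement -/
abbrev Lit : Type := Bool × Bool × List ℕ × List ℕ

/-- truth of a literal, as in the frozen statement -/
def LitHolds (p : ℕ) (x : ℕ → ℤ) (l : Lit) : Prop :=
  (((l.2.1 = true ∧ ∃ s : ℕ, ev l.2.2.2 x = (p : ℤ) ^ s * ev l.2.2.1 x) ∨
    (l.2.1 = false ∧ ev l.2.2.1 x = ev l.2.2.2 x)) ↔ l.1 = false)

/-- translation of a constraint -/
def tr : Con ℕ → Lit
  | Sum.inl t => (false, false, unit t.1, two t.2.1 t.2.2)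
  | Sum.inr (Sum.inl t) => (false, true, unit t.1, unit t.2)
  | Sum.inr (Sum.inr i) => (false, false, unit i, [1])

theorem litHolds_tr (x : ℕ → ℤ) (h0 : x 0 = 1) (c : Con ℕ) :
    LitHolds 2 x (tr c) ↔ Holds x c := by
  rcases c with t | t | i
  · simp only [LitHolds, tr, Holds, ev_unit, ev_two]
    simp
  · simp only [LitHolds, tr, Holds, ev_unit, Dv]
    simp
  · simp only [LitHolds, tr, Holds, ev_unit]
    simp [ev, h0]

/-- the literal `2 ^ (n + 1) = x k` -/
def lit0 (k n : ℕ) : Lit := (false, false, [2 ^ (n + 1)], unit k)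

theorem litHolds_lit0 (x : ℕ → ℤ) (h0 : x 0 = 1) (k n : ℕ) :
    LitHolds 2 x (lit0 k n) ↔ x k = 2 ^ (n + 1) := by
  simp only [LitHolds, lit0, ev_unit]
  simp [ev, h0, eq_comm]

theorem prim_two_pow : Primrec (fun n : ℕ => 2 ^ (n + 1)) := by
  have h : Primrec (Nat.rec 2 (fun _ b => b + b) : ℕ → ℕ) :=
    Primrec.nat_rec₁ 2 ((Primrec.nat_add.comp Primrec.snd Primrec.snd).to₂)
  refine h.of_eq fun n => ?_
  induction n with
  | zero => rfl
  | succ n ih =>
    change (Nat.rec 2 (fun _ b => b + b) n : ℕ) + (Nat.rec 2 (fun _ b => b + b) n : ℕ) = _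
    rw [ih, pow_succ 2 (n + 1)]
    ring

theorem comp_sys (k : ℕ) (L : List Lit) : Computable (fun n => lit0 k n :: L) := by
  apply Primrec.to_comp
  refine Primrec.list_cons.comp ?_ (Primrec.const L)
  have h1 : Primrec (fun n : ℕ => ([2 ^ (n + 1)] : List ℕ)) :=
    Primrec.list_cons.comp prim_two_pow (Primrec.const [])
  exact Primrec.pair (Primrec.const false) (Primrec.pair (Primrec.const false)
    (Primrec.pair h1 (Primrec.const (unit k))))

/-- every recursively enumerable set reduces to the existential theory -/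
theorem reduction (S : ℕ → Prop) (hS : REPred S) : ∃ (k : ℕ) (L : List Lit), ∀ n,
    S n ↔ ∃ x : ℕ → ℤ, x 0 = 1 ∧ ∀ l ∈ lit0 k n :: L, LitHolds 2 x l := by
  obtain ⟨T, ⟨β, _, L, hL⟩, hT⟩ := pd_of_dioph (Pool.Agent.Helper844.Dio.dprm hS)
  let e := Fintype.equivFin (Unit ⊕ β)
  let g : Unit ⊕ β → ℕ := fun x => (e x).val + 1
  refine ⟨g (Sum.inl ()), (L.map (cmap g)).map tr, fun n => ?_⟩
  have h1 := hT (fun _ => n + 1) (fun _ => Nat.succ_pos n)
  simp only [Nat.add_sub_cancel] at h1
  rw [h1, hL]
  have epw : pw (fun _ : Unit => n + 1) = fun _ => (2 : ℤ) ^ (n + 1) := rfl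
  rw [epw]
  constructor
  · rintro ⟨y, hc⟩
    let x : ℕ → ℤ := fun m => if h : m ≠ 0 ∧ m - 1 < Fintype.card (Unit ⊕ β) then
      Sum.elim (fun _ => (2 : ℤ) ^ (n + 1)) y (e.symm ⟨m - 1, h.2⟩) else 1
    have x0 : x 0 = 1 := by simp [x]
    have xg : ∀ z, x (g z) = Sum.elim (fun _ => (2 : ℤ) ^ (n + 1)) y z := by
      intro z
      simp only [x, g]
      rw [dif_pos ⟨Nat.succ_ne_zero _, by simpa using (e z).2⟩]
      simp
    refine ⟨x, x0, ?_⟩
    intro l hl
    rcases List.mem_cons.1 hl with rfl | hl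
    · rw [litHolds_lit0 x x0]
      exact xg _
    · rw [List.map_map, List.mem_map] at hl
      obtain ⟨c, hc', rfl⟩ := hl
      simp only [Function.comp]
      rw [litHolds_tr x x0, holds_cmap]
      have := hc c hc'
      convert this using 1
      funext z
      exact xg z
  · rintro ⟨x, x0, hx⟩
    have hk := (litHolds_lit0 x x0 _ _).1 (hx _ List.mem_cons_self)
    refine ⟨fun b => x (g (Sum.inr b)), ?_⟩
    intro c hc
    have := hx (tr (cmap g c)) (List.mem_cons_of_mem _ (by
      rw [List.map_map]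
      exact List.mem_map_of_mem (f := tr ∘ cmap g) hc))
    rw [litHolds_tr x x0, holds_cmap] at this
    convert this using 1
    funext z
    rcases z with z | z
    · exact hk.symm
    · rfl

/-- a recursively enumerable, not decidable set of natural numbers -/
theorem exists_re : ∃ p : ℕ → Prop, REPred p ∧ ¬ ComputablePred p := by
  refine ⟨fun n => ((Denumerable.ofNat Nat.Partrec.Code n).eval 0).Dom, ?_, ?_⟩
  · have h := Nat.Partrec.Code.eval_part.comp
      (Computable.ofNat Nat.Partrec.Code) (Computable.const (0 : ℕ))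
    exact Partrec.dom_re h
  · intro h
    refine ComputablePred.halting_problem 0 ?_
    have : ManyOneReducible (fun c : Nat.Partrec.Code => (Nat.Partrec.Code.eval c 0).Dom)
        (fun n => ((Denumerable.ofNat Nat.Partrec.Code n).eval 0).Dom) := by
      refine ⟨Encodable.encode, Computable.encode, ?_⟩
      intro c
      simp [Denumerable.ofNat_encode]
    exact ComputablePred.computable_of_manyOneReducible this h

/-- the existential theory of `(ℤ, +, |₂, 0, 1)` is undecidable -/
theorem undecidable : ¬ ComputablePred (fun S : List Lit =>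
    ∃ x : ℕ → ℤ, x 0 = 1 ∧ ∀ l ∈ S, LitHolds 2 x l) := by
  intro h
  obtain ⟨p, hp, hn⟩ := exists_re
  obtain ⟨k, L, hL⟩ := reduction p hp
  apply hn
  refine ComputablePred.computable_of_manyOneReducible ?_ h
  exact ⟨fun n => lit0 k n :: L, comp_sys k L, hL⟩

end Pool.Agent.H395R5
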